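import Pool.Agent.K7.H12.GL.Defs

/-!
# Project GL, job CUT
-/

set_option autoImplicit false

namespace Pool.Agent.K7.H31.GL

open Pool.Agent.K7.H12.GL Finset

open Classical in
/-- Conway's argument -/
theorem conway {α β : Type} (P : Finset α) (Q : Finset β) (R : α → β → Prop)
    (hQ : Q.Nonempty) (hP : ∀ u ∈ Q, ∃ p ∈ P, ¬ R p u)
    (h : ∀ p ∈ P, ∀ u ∈ Q, ¬ R p u →
      (P.filter fun p => R p u).card ≤ (Q.filter fun u => R p u).card)
    (hpos : ∀ p ∈ P, 0 < (Q.filter fun u => R p u).card) : P.card ≤ Q.card := by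
  by_contra hlt
  rw [not_le] at hlt
  set r : α → ℚ := fun p => ((Q.filter fun u => R p u).card : ℚ) with hr
  set k : β → ℚ := fun u => ((P.filter fun p => R p u).card : ℚ) with hk
  set b : ℚ := (Q.card : ℚ) with hb
  set v : ℚ := (P.card : ℚ) with hv
  have hbv : b < v := by rw [hb, hv]; exact_mod_cast hlt
  -- double counting
  have hdc : ∑ p ∈ P, r p = ∑ u ∈ Q, k u := by
    have := Finset.sum_card_bipartiteAbove_eq_sum_card_bipartiteBelow (s := P) (t := Q) R
    simp only [Finset.bipartiteAbove, Finset.bipartiteBelow] at this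
    simp only [hr, hk]
    exact_mod_cast this
  have hnr : ∀ p, ((Q.filter fun u => ¬ R p u).card : ℚ) = b - r p := by
    intro p
    have := Finset.card_filter_add_card_filter_not (s := Q) (fun u => R p u)
    rw [hb, hr]
    have h2 : ((Q.filter fun u => R p u).card : ℚ) + ((Q.filter fun u => ¬ R p u).card : ℚ) =
      (Q.card : ℚ) := by exact_mod_cast this
    linarith
  have hnk : ∀ u, ((P.filter fun p => ¬ R p u).card : ℚ) = v - k u := by
    intro u
    have := Finset.card_filter_add_card_filter_not (s := P) (fun p => R p u)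
    rw [hv, hk]
    have h2 : ((P.filter fun p => R p u).card : ℚ) + ((P.filter fun p => ¬ R p u).card : ℚ) =
      (P.card : ℚ) := by exact_mod_cast this
    linarith
  have hbr : ∀ p ∈ P, ∀ u ∈ Q, ¬ R p u → 0 < b - r p := by
    intro p _ u hu hn
    rw [← hnr p]
    have : 0 < (Q.filter fun u => ¬ R p u).card :=
      Finset.card_pos.2 ⟨u, Finset.mem_filter.2 ⟨hu, hn⟩⟩
    exact_mod_cast this
  have hvk : ∀ u ∈ Q, 0 < v - k u := by
    intro u hu
    rw [← hnk u]
    obtain ⟨p, hp, hn⟩ := hP u hu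
    have : 0 < (P.filter fun p => ¬ R p u).card :=
      Finset.card_pos.2 ⟨p, Finset.mem_filter.2 ⟨hp, hn⟩⟩
    exact_mod_cast this
  -- first sum
  have h1 : ∑ p ∈ P, ∑ u ∈ Q.filter (fun u => ¬ R p u), r p / (b - r p) ≤ ∑ p ∈ P, r p := by
    refine Finset.sum_le_sum fun p hp => ?_
    rw [Finset.sum_const, nsmul_eq_mul, hnr p]
    by_cases h0 : b - r p = 0
    · rw [h0, zero_mul]
      rw [hr]; positivity
    · rw [mul_div_cancel₀ _ h0]
  have h2 : ∑ u ∈ Q, ∑ p ∈ P.filter (fun p => ¬ R p u), k u / (v - k u) = ∑ u ∈ Q, k u := by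
    refine Finset.sum_congr rfl fun u hu => ?_
    rw [Finset.sum_const, nsmul_eq_mul, hnk u, mul_div_cancel₀ _ (hvk u hu).ne']
  have h3 : ∑ p ∈ P, ∑ u ∈ Q.filter (fun u => ¬ R p u), k u / (v - k u) =
      ∑ u ∈ Q, ∑ p ∈ P.filter (fun p => ¬ R p u), k u / (v - k u) := by
    refine Finset.sum_comm' fun p u => ?_
    simp only [Finset.mem_filter]
    tauto
  have hterm : ∀ p ∈ P, ∀ u ∈ Q.filter (fun u => ¬ R p u),
      k u / (v - k u) < r p / (b - r p) := by
    intro p hp u hu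
    rw [Finset.mem_filter] at hu
    have e1 := hbr p hp u hu.1 hu.2
    have e2 := hvk u hu.1
    have e3 : k u ≤ r p := by
      simp only [hk, hr]
      exact_mod_cast h p hp u hu.1 hu.2
    have e4 : 0 < r p := by
      simp only [hr]
      exact_mod_cast hpos p hp
    rw [div_lt_div_iff₀ e2 e1]
    have e5 : 0 ≤ k u := by rw [hk]; positivity
    nlinarith
  have h4 : ∑ p ∈ P, ∑ u ∈ Q.filter (fun u => ¬ R p u), k u / (v - k u) <
      ∑ p ∈ P, ∑ u ∈ Q.filter (fun u => ¬ R p u), r p / (b - r p) := by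
    obtain ⟨u, hu⟩ := hQ
    obtain ⟨p, hp, hn⟩ := hP u hu
    refine Finset.sum_lt_sum (fun p hp => Finset.sum_le_sum fun u hu => (hterm p hp u hu).le)
      ⟨p, hp, Finset.sum_lt_sum (fun u hu => (hterm p hp u hu).le)
        ⟨u, Finset.mem_filter.2 ⟨hu, hn⟩, hterm p hp u (Finset.mem_filter.2 ⟨hu, hn⟩)⟩⟩
  rw [h3, h2, ← hdc] at h4
  exact absurd h1 (not_le.2 h4)

variable {L : Type} [CompleteLattice L]

/-- `U` meets all chains -/
def Cuts (k : ℕ) (a : L) (A A' U : Set L) : Prop :=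
  ∀ c : ℕ → L, c 1 ∈ A' → (∀ i, 1 ≤ i → i < k → c i ∈ Sp a A) →
    (∀ i, 1 ≤ i → i + 1 < k → c i ⋖ c (i + 1)) → ∃ i, 1 ≤ i ∧ i < k ∧ c i ∈ U

theorem push {ρ : L → ℕ} (hB : Base L ρ) {k : ℕ} {a : L} {A A' U : Set L}
    (hA : ∀ p ∈ A, a ⋖ p) (hA' : A' ⊆ A) (hcut : Cuts (k + 1) a A A' U) {p q : L} (hq : q ∈ A)
    (hp : p ∈ A') (hpU : p ∉ U) {l : L} (hpl : p ⋖ l) (c : ℕ → L) (hc : c 1 = l)
    (h1 : ∀ i, 1 ≤ i → i < k → c i ∈ Sp q (Ln A q))
    (h2 : ∀ i, 1 ≤ i → i + 1 < k → c i ⋖ c (i + 1)) :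
    ∃ i, 1 ≤ i ∧ i < k ∧ c i ∈ {u | u ∈ U ∧ q ≤ u} := by
  obtain ⟨hl1, hl2, hl3⟩ := hB.lines a A hA q hq
  obtain ⟨i, hi1, hi2, hi3⟩ := hcut (fun i => if i ≤ 1 then p else c (i - 1)) (by simpa using hp)
    (fun i hi hik => by
      by_cases h : i ≤ 1
      · simp only [h, if_true]
        exact hB.point a A hA p (hA' hp)
      · simp only [h, if_false]
        exact hl3 (h1 (i - 1) (by omega) (by omega)))
    (fun i hi hik => by
      by_cases h : i ≤ 1
      · have hi' : i = 1 := by omega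
        subst hi'
        simp only [le_refl, if_true]
        norm_num
        rw [hc]
        exact hpl
      · have h' : ¬ (i + 1 ≤ 1) := by omega
        simp only [h, h', if_false]
        have := h2 (i - 1) (by omega) (by omega)
        rwa [show i - 1 + 1 = i + 1 - 1 from by omega] at this)
  by_cases h : i ≤ 1
  · simp only [h, if_true] at hi3
    exact absurd hi3 hpU
  · simp only [h, if_false] at hi3
    exact ⟨i - 1, by omega, by omega, hi3,
      (hB.le_tp q (Ln A q) _ (h1 (i - 1) (by omega) (by omega))).1⟩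

theorem core {ρ : L → ℕ} (hG : Geo L ρ) (hB : Base L ρ) {k : ℕ} (hk : 2 ≤ k)
    (ih : ∀ (a : L) (A : Set L), A.Finite → (∀ p ∈ A, a ⋖ p) → ρ (tp a A) = ρ a + k →
      ∀ (A' U : Set L), A' ⊆ A → U.Finite → Cuts k a A A' U → A'.ncard ≤ U.ncard)
    (a : L) (A : Set L) (hAf : A.Finite) (hA : ∀ p ∈ A, a ⋖ p) (hr : ρ (tp a A) = ρ a + (k + 1))
    (A' U : Set L) (hA' : A' ⊆ A) (hU : U.Finite) (hcut : Cuts (k + 1) a A A' U)
    (hU1 : ∀ u ∈ U, u ∈ Sp a A ∧ ρ a + 2 ≤ ρ u ∧ ρ u < ρ a + (k + 1)) :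
    A'.ncard ≤ U.ncard := by
  classical
  have hA'f : A'.Finite := hAf.subset hA'
  have hρ : ∀ p ∈ A, ρ p = ρ a + 1 := fun p hp => hG.cov a p (hA p hp)
  have hpU : ∀ p ∈ A, p ∉ U := by
    intro p hp hpu
    have := (hU1 p hpu).2.1
    have := hρ p hp
    omega
  have hLf : ∀ p, (Ln A p).Finite := by
    intro p
    refine (hAf.image (fun q => p ⊔ q)).subset ?_
    rintro l ⟨q, hq, -, rfl⟩
    exact ⟨q, hq, rfl⟩
  rcases A'.eq_empty_or_nonempty with h0 | ⟨p0, hp0⟩
  · rw [h0, Set.ncard_empty]; exact Nat.zero_le _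
  -- the number of lines through a point of `A'`
  have hr1 : ∀ p ∈ A', (Ln A p).ncard ≤ {u | u ∈ U ∧ p ≤ u}.ncard := by
    intro p hp
    obtain ⟨hl1, hl2, hl3⟩ := hB.lines a A hA p (hA' hp)
    refine ih p (Ln A p) (hLf p) hl1 (by rw [hl2, hr, hρ p (hA' hp)]; omega) (Ln A p) _
      subset_rfl (hU.subset fun u hu => hu.1) ?_
    intro c hc1 hc2 hc3
    exact push hB hA hA' hcut (hA' hp) hp (hpU p (hA' hp)) (hl1 _ hc1) c rfl hc2 hc3
  -- there are lines
  have hlpos : ∀ p ∈ A, 0 < (Ln A p).ncard := by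
    intro p hp
    rw [Set.ncard_pos (hLf p)]
    by_contra hne
    rw [Set.not_nonempty_iff_eq_empty] at hne
    have h1 := (hB.lines a A hA p hp).2.1
    rw [hne, tp, sSup_empty, sup_bot_eq] at h1
    have h2 := hρ p hp
    rw [h1, hr] at h2
    omega
  have hUne : U.Nonempty := by
    have h1 := hlpos p0 (hA' hp0)
    have h2 := hr1 p0 hp0
    have h3 : 0 < {u | u ∈ U ∧ p0 ≤ u}.ncard := by omega
    obtain ⟨u, hu⟩ := (Set.ncard_pos (hU.subset fun u hu => hu.1)).1 h3
    exact ⟨u, hu.1⟩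
  by_cases hex : ∃ u ∈ U, ∀ p ∈ A', p ≤ u
  · obtain ⟨u, hu, hpu⟩ := hex
    obtain ⟨q, hq, hqu⟩ : ∃ q ∈ A, ¬ q ≤ u := by
      by_contra hall
      push Not at hall
      have h1 := hB.le_tp a A u (hU1 u hu).1
      have h2 : tp a A ≤ u := sup_le h1.1 (sSup_le hall)
      have h3 := hG.mono.monotone h2
      have := (hU1 u hu).2.2
      omega
    obtain ⟨hl1, hl2, hl3⟩ := hB.lines a A hA q hq
    have hinj : Set.InjOn (fun p => q ⊔ p) A' := by
      intro p hp p' hp' he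
      exact hB.inj a A hA q hq p (hA' hp) p' (hA' hp') u (hpu p hp) (hpu p' hp') hqu he
    rw [← Set.InjOn.ncard_image hinj]
    have hsub : (fun p => q ⊔ p) '' A' ⊆ Ln A q := by
      rintro _ ⟨p, hp, rfl⟩
      exact ⟨p, hA' hp, fun e => hqu (e ▸ hpu p hp), rfl⟩
    refine (ih q (Ln A q) (hLf q) hl1 (by rw [hl2, hr, hρ q hq]; omega) _
      {u | u ∈ U ∧ q ≤ u} hsub (hU.subset fun u hu => hu.1) ?_).trans
      (Set.ncard_le_ncard (fun u hu => hu.1) hU)
    intro c hc1 hc2 hc3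
    obtain ⟨p, hp, hpc⟩ := hc1
    have hpq : q ≠ p := fun e => hqu (e ▸ hpu p hp)
    have hcov : p ⋖ q ⊔ p :=
      (hB.lines a A hA p (hA' hp)).1 _ ⟨q, hq, hpq, sup_comm _ _⟩
    exact push hB hA hA' hcut hq hp (hpU p (hA' hp)) hcov c hpc.symm hc2 hc3
  · push Not at hex
    rw [Set.ncard_eq_toFinset_card _ hA'f, Set.ncard_eq_toFinset_card _ hU]
    have hfil : ∀ p, {u | u ∈ U ∧ p ≤ u}.ncard =
        ((hU.toFinset).filter fun u => p ≤ u).card := by
      intro p
      rw [← Set.ncard_coe_finset]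
      congr 1
      ext u
      simp
    refine conway _ _ (fun p u => p ≤ u) ?_ ?_ ?_ ?_
    · obtain ⟨u, hu⟩ := hUne
      exact ⟨u, hU.mem_toFinset.2 hu⟩
    · intro u hu
      obtain ⟨p, hp, hn⟩ := hex u (hU.mem_toFinset.1 hu)
      exact ⟨p, hA'f.mem_toFinset.2 hp, hn⟩
    · intro p hp u hu hn
      rw [hA'f.mem_toFinset] at hp
      rw [hU.mem_toFinset] at hu
      rw [← hfil p]
      refine le_trans ?_ (hr1 p hp)
      rw [← Set.ncard_coe_finset]
      refine Set.ncard_le_ncard_of_injOn (fun q => p ⊔ q) ?_ ?_ (hLf p)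
      · intro q hq
        simp only [Finset.coe_filter, Set.Finite.mem_toFinset, Set.mem_ofPred_eq] at hq
        exact ⟨q, hA' hq.1, fun e => hn (e ▸ hq.2), rfl⟩
      · intro q hq q' hq' he
        simp only [Finset.coe_filter, Set.Finite.mem_toFinset, Set.mem_ofPred_eq] at hq hq'
        exact hB.inj a A hA p (hA' hp) q (hA' hq.1) q' (hA' hq'.1) u hq.2 hq'.2 hn he
    · intro p hp
      rw [hA'f.mem_toFinset] at hp
      rw [← hfil p]
      have h1 := hlpos p (hA' hp)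
      have h2 := hr1 p hp
      omega

theorem rank_chain {ρ : L → ℕ} (hG : Geo L ρ) {k : ℕ} {a : L} (c : ℕ → L) (h1 : a ⋖ c 1)
    (h2 : ∀ i, 1 ≤ i → i + 1 < k → c i ⋖ c (i + 1)) :
    ∀ i, 1 ≤ i → i < k → ρ (c i) = ρ a + i := by
  intro i
  induction i with
  | zero => intro h; omega
  | succ i ih =>
    intro _ hik
    rcases Nat.eq_zero_or_pos i with h0 | h0
    · subst h0
      exact hG.cov a _ h1
    · rw [hG.cov _ _ (h2 i h0 hik), ih h0 (by omega)]
      omega

theorem cut : StCut := by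
  intro L _ ρ hG hB k
  induction k with
  | zero => intro a A _ _ _ h; omega
  | succ k ih =>
    intro a A hAf hA hr hk A' U hA' hU hcut
    rcases Nat.lt_or_ge k 2 with hk2 | hk2
    · -- `k + 1 = 2`
      have hk1 : k = 1 := by omega
      subst hk1
      refine Set.ncard_le_ncard (fun p hp => ?_) hU
      obtain ⟨i, hi1, hi2, hi3⟩ := hcut (fun _ => p) hp (fun _ _ _ => hB.point a A hA p (hA' hp))
        (fun i h1 h2 => by omega)
      exact hi3
    · have hρ : ∀ p ∈ A, ρ p = ρ a + 1 := fun p hp => hG.cov a p (hA p hp)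
      set U1 : Set L := {u | u ∈ U ∧ u ∈ Sp a A ∧ ρ a + 2 ≤ ρ u ∧ ρ u < ρ a + (k + 1)} with hU1
      have hU1f : U1.Finite := hU.subset fun u hu => hu.1
      have key : (A' \ U).ncard ≤ U1.ncard := by
        refine core hG hB hk2 (fun a A h1 h2 h3 A' U h4 h5 h6 => ih a A h1 h2 h3 hk2 A' U h4 h5 h6)
          a A hAf hA hr (A' \ U) U1 (Set.sdiff_subset.trans hA') hU1f ?_ (fun u hu => hu.2)
        intro c hc1 hc2 hc3
        obtain ⟨i, hi1, hi2, hi3⟩ := hcut c hc1.1 hc2 hc3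
        have hrk := rank_chain hG c (hA _ (hA' hc1.1)) hc3
        have hi1' : i ≠ 1 := by
          rintro rfl
          exact hc1.2 hi3
        refine ⟨i, hi1, hi2, hi3, hc2 i hi1 hi2, ?_, ?_⟩
        · rw [hrk i hi1 hi2]; omega
        · rw [hrk i hi1 hi2]; omega
      have hA'f : A'.Finite := hAf.subset hA'
      have h1 : (A' \ U).ncard + (A' ∩ U).ncard = A'.ncard := by
        rw [add_comm]
        exact Set.ncard_inter_add_ncard_sdiff_eq_ncard A' U hA'f
      have h2 : (U1 ∪ (A' ∩ U)).ncard ≤ U.ncard :=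
        Set.ncard_le_ncard (Set.union_subset (fun u hu => hu.1) Set.inter_subset_right) hU
      have h3 : Disjoint U1 (A' ∩ U) := by
        rw [Set.disjoint_left]
        rintro u hu ⟨hu', -⟩
        have := hρ u (hA' hu')
        have := hu.2.2.1
        omega
      rw [Set.ncard_union_eq h3 hU1f (hU.subset Set.inter_subset_right)] at h2
      omega

end Pool.Agent.K7.H31.GL
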